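import Pool.Agent.Lib.MP_3beb55_lc.Main

/-! From a decreasing sequence of relations to a graph, for a set `C` of colours with more than
`#C` sequences. -/

namespace Pool.Agent.Lib.MP_3beb55_lc.CF
open Cardinal

variable {Z C : Type}

/-- `s` is split into classes indexed by `D`, each independent for some `R k`. -/
def Sig (D : Type) (R : ℕ → Z → Z → Prop) (s : Set Z) : Prop :=
  ∃ (d : Z → D) (k : D → ℕ), ∀ x ∈ s, ∀ y ∈ s, d x = d y → ¬ R (k (d x)) x y

/-- `s` is a union of at most `θ` sets, each independent for some `R k`. -/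
def Cov (θ : Cardinal.{0}) (R : ℕ → Z → Z → Prop) (s : Set Z) : Prop :=
  ∃ D : Type, #D ≤ θ ∧ Sig D R s

theorem Cov.of_parts {θ : Cardinal.{0}} (hθ : ℵ₀ ≤ θ) {R : ℕ → Z → Z → Prop} {s : Set Z}
    (p : Z → ℕ) (h : ∀ m, Cov θ R {x | x ∈ s ∧ p x = m}) : Cov θ R s := by
  choose D hD d k h using h
  refine ⟨Σ m, D m, ?_, fun x => ⟨p x, d (p x) x⟩, fun n => k n.1 n.2, ?_⟩
  · rw [Cardinal.mk_sigma]
    refine (Cardinal.sum_le_sum _ _ hD).trans ?_
    rw [Cardinal.sum_const', Cardinal.mk_nat]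
    exact Cardinal.mul_le_of_le hθ hθ le_rfl
  · intro x hx y hy hxy
    simp only [Sigma.mk.injEq] at hxy
    obtain ⟨h1, h2⟩ := hxy
    refine h (p x) x ⟨hx, rfl⟩ y ⟨hy, h1.symm⟩ ?_
    rw [← h1] at h2
    exact eq_of_heq h2

theorem Cov.sig {R : ℕ → Z → Z → Prop} {s : Set Z} (h : Cov #C R s) : Sig C R s := by
  obtain ⟨D, hD, d, k, h⟩ := h
  obtain ⟨ι⟩ := Cardinal.le_def _ _ |>.1 hD
  refine ⟨fun x => ι (d x), Function.extend ι k 0, fun x hx y hy e => ?_⟩
  rw [ι.injective.extend_apply]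
  exact h x hx y hy (ι.injective e)

/-- Pairs of a point and a sequence; two pairs are joined when the points are `R k`-related and
the sequences differ at `k`. -/
def graph (T : Set (ℕ → C)) (R : ℕ → Z → Z → Prop) : SimpleGraph (Z × T) :=
  SimpleGraph.fromRel fun v w => ∃ k, v.2.1 k ≠ w.2.1 k ∧ R k v.1 w.1

theorem colorable_T (T : Set (ℕ → C)) (R : ℕ → Z → Z → Prop) :
    Nonempty ((graph T R).Coloring T) := by
  refine ⟨SimpleGraph.Coloring.mk (fun v => v.2) fun {v w} h e => ?_⟩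
  rw [graph, SimpleGraph.fromRel_adj] at h
  rcases h.2 with ⟨k, h, -⟩ | ⟨k, h, -⟩
  · exact h (by rw [e])
  · exact h (by rw [e])

theorem cov_of_coloring [Infinite C] {T : Set (ℕ → C)} (hT : #C < #T) (R : ℕ → Z → Z → Prop)
    (c : (graph T R).Coloring C) : Cov #C R Set.univ := by
  have h : ∀ z : Z, ∃ (t t' : T) (k : ℕ), c (z, t) = c (z, t') ∧ t.1 k ≠ t'.1 k := fun z => by
    by_contra hc
    push Not at hc
    exact hT.not_ge (Cardinal.mk_le_of_injective (f := fun t : T => c (z, t))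
      fun t t' e => Subtype.ext (funext fun k => hc t t' k e))
  choose t t' k h1 h2 using h
  have h0 := Cardinal.aleph0_le_mk C
  refine ⟨ℕ × C × C × C, ?_, fun z => (k z, c (z, t z), (t z).1 (k z), (t' z).1 (k z)),
    fun p => p.1, fun x _ y _ e hR => ?_⟩
  · simp only [Cardinal.mk_prod, Cardinal.lift_id, Cardinal.mk_nat]
    exact Cardinal.mul_le_of_le h0 h0
      (Cardinal.mul_le_of_le h0 le_rfl (Cardinal.mul_le_of_le h0 le_rfl le_rfl))
  · simp only [Prod.mk.injEq] at e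
    obtain ⟨e1, e2, -, e4⟩ := e
    have h3 : (t x).1 (k x) ≠ (t' y).1 (k x) := by
      rw [e1, ← e4, ← e1]
      exact h2 x
    refine c.valid (v := (x, t x)) (w := (y, t' y)) ?_ (e2.trans (h1 y))
    rw [graph, SimpleGraph.fromRel_adj]
    exact ⟨fun e => h3 (by rw [(Prod.mk.inj e).2]), Or.inl ⟨_, h3, hR⟩⟩

theorem coloring_of_cov [Infinite C] (T : Set (ℕ → C)) (R : ℕ → Z → Z → Prop)
    (hR : ∀ k l, k ≤ l → ∀ x y, R l x y → R k x y) (s : Set (Z × T))
    (h : Cov #C R (Prod.fst '' s)) : Nonempty (((graph T R).induce s).Coloring C) := by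
  obtain ⟨D, hD, d, k, h⟩ := h
  have key : ∀ v ∈ s, ∀ w ∈ s, d v.1 = d w.1 →
      (List.range (k (d v.1))).map v.2.1 = (List.range (k (d w.1))).map w.2.1 →
      ¬ ∃ n, v.2.1 n ≠ w.2.1 n ∧ R n v.1 w.1 := by
    rintro v hv w hw e1 e2 ⟨n, h1, h2⟩
    rcases lt_or_ge n (k (d v.1)) with hn | hn
    · rw [← e1] at e2
      exact h1 (List.map_inj_left.1 e2 n (List.mem_range.2 hn))
    · exact h _ ⟨v, hv, rfl⟩ _ ⟨w, hw, rfl⟩ e1 (hR _ _ hn _ _ h2)
  have h0 := Cardinal.aleph0_le_mk C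
  have hC : #(D × List C) ≤ #C := by
    simp only [Cardinal.mk_prod, Cardinal.lift_id, Cardinal.mk_list_eq_mk]
    exact Cardinal.mul_le_of_le h0 hD le_rfl
  obtain ⟨ι⟩ := Cardinal.le_def _ _ |>.1 hC
  refine ⟨SimpleGraph.Coloring.mk
    (fun v => ι (d v.1.1, (List.range (k (d v.1.1))).map v.1.2.1)) ?_⟩
  intro v w hvw e
  have e := Prod.mk.inj (ι.injective e)
  have hvw' : (graph T R).Adj v.1 w.1 := hvw
  rw [graph, SimpleGraph.fromRel_adj] at hvw'
  rcases hvw'.2 with h' | h'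
  · exact key _ v.2 _ w.2 e.1 e.2 h'
  · exact key _ w.2 _ v.2 e.1.symm e.2.symm h'

end Pool.Agent.Lib.MP_3beb55_lc.CF
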