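import Pool.Agent.Lib.MP_3beb55_lc.CF.Tower

/-! Incompactness for the chromatic number just above the least strong limit above `θ`, whenever
`θ < θ ^ ℵ₀`. -/

namespace Pool.Agent.Lib.MP_3beb55_lc.CF
open Cardinal Ordinal

variable {A C : Type}

theorem shift_large [Zero A] {θ : Cardinal.{0}} (hA : ∀ m, bt m θ < #A) (d : ℕ) :
    ∀ (m : ℕ) (D : Type), #D ≤ bt m θ → ∀ τ : (ℕ →₀ A) → D,
      ∃ x y : ℕ →₀ A, Sh d x y ∧ τ x = τ y := by
  classical
  induction d with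
  | zero =>
    intro m D hD τ
    have : ¬ Function.Injective (fun a : A => τ (Finsupp.single 0 a)) := by
      intro hinj
      exact absurd ((Cardinal.mk_le_of_injective hinj).trans hD) (not_le.2 (hA m))
    simp only [Function.Injective, not_forall] at this
    obtain ⟨a, b, hab, hne⟩ := this
    refine ⟨_, _, ⟨?_, ?_⟩, hab⟩
    · intro j hj
      obtain rfl : j = 0 := by omega
      simpa using hne
    · intro j hj
      omega
  | succ d ih =>
    intro m D hD τ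
    have hD' : #(Set D) ≤ bt (m + 1) θ := by
      rw [Cardinal.mk_set, bt_succ']
      exact Cardinal.power_le_power_left two_ne_zero hD
    obtain ⟨x, y, hS, hτ⟩ := ih (m + 1) (Set D) hD'
      (fun x => {c | ∃ z : ℕ →₀ A, (∀ j ≤ d, z j = x j) ∧ z (d + 1) ≠ x d ∧ τ z = c})
    have hz : τ (x.update (d + 1) (y d)) ∈
        {c | ∃ z : ℕ →₀ A, (∀ j ≤ d, z j = x j) ∧ z (d + 1) ≠ x d ∧ τ z = c} := by
      refine ⟨_, ?_, ?_, rfl⟩
      · intro j hj
        simp [Function.update_of_ne (show j ≠ d + 1 by omega)]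
      · simpa using (hS.1 d le_rfl).symm
    rw [show {c | ∃ z : ℕ →₀ A, (∀ j ≤ d, z j = x j) ∧ z (d + 1) ≠ x d ∧ τ z = c} =
      {c | ∃ z : ℕ →₀ A, (∀ j ≤ d, z j = y j) ∧ z (d + 1) ≠ y d ∧ τ z = c} from hτ] at hz
    obtain ⟨z, h1, h2, h3⟩ := hz
    refine ⟨_, z, ⟨?_, ?_⟩, h3.symm⟩
    · intro j hj
      rcases Nat.lt_or_ge j (d + 1) with h | h
      · simp only [Finsupp.coe_update, Function.update_of_ne (show j ≠ d + 1 by omega)]
        rw [h1 j (by omega)]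
        exact hS.1 j (by omega)
      · obtain rfl : j = d + 1 := by omega
        simpa using h2.symm
    · intro j hj
      rw [h1 j (by omega)]
      rcases Nat.lt_or_ge j d with h | h
      · simp only [Finsupp.coe_update, Function.update_of_ne (show j + 1 ≠ d + 1 by omega)]
        exact hS.2 j h
      · obtain rfl : j = d := by omega
        simp

theorem shift_small' [Zero A] [Infinite C] (m : ℕ) (W' : Set (ℕ →₀ A)) (h : #W' ≤ bt m #C) :
    ∃ φ : (ℕ →₀ A) → C, ∀ x ∈ W', ∀ y ∈ W', Sh m x y → φ x ≠ φ y := by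
  have h1 := (Cardinal.aleph0_le_mk C).trans (le_bt m #C)
  have hA' : #(Set.range (fun p : W' × ℕ => p.1.1 p.2)) ≤ bt m #C := by
    refine Cardinal.mk_range_le.trans ?_
    simp only [Cardinal.mk_prod, Cardinal.lift_id, Cardinal.mk_nat]
    exact Cardinal.mul_le_of_le h1 h h1
  obtain ⟨φ, -, hφ⟩ := shift_small m C _ hA'
  exact ⟨fun x => φ x, fun x hx y hy hS =>
    hφ _ _ (fun j _ => ⟨(⟨x, hx⟩, j), rfl⟩) (fun j _ => ⟨(⟨y, hy⟩, j), rfl⟩) hS⟩

/-- The limit of the iterated powers. -/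
noncomputable def bw (θ : Cardinal.{0}) : Cardinal.{0} := ⨆ m, bt m θ

theorem bt_lt_bw (m : ℕ) (θ : Cardinal.{0}) : bt m θ < bw θ := by
  refine lt_of_lt_of_le ?_ (le_ciSup Cardinal.bddAbove_of_small (m + 1))
  rw [bt_succ']
  exact Cardinal.cantor _

theorem cov_of_le {Z : Type} {θ : Cardinal.{0}} (hθ : ℵ₀ ≤ θ) (R : ℕ → Z → Z → Prop)
    (h : ∀ (m : ℕ) (s : Set Z), #s ≤ bt m θ → Cov θ R s) (s : Set Z)
    (hs : #s ≤ bw θ) : Cov θ R s := by
  classical
  have hsum : bw θ ≤ #(Σ m : ℕ, (bt m θ).out) := by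
    rw [Cardinal.mk_sigma]
    simp only [Cardinal.mk_out]
    exact Cardinal.iSup_le_sum _
  obtain ⟨ι⟩ := Cardinal.le_def _ _ |>.1 (hs.trans hsum)
  refine Cov.of_parts hθ (fun z => if hz : z ∈ s then (ι ⟨z, hz⟩).1 else 0) fun m => ?_
  apply h m
  have key : ∀ z : {x | x ∈ s ∧ (if hz : x ∈ s then (ι ⟨x, hz⟩).1 else 0) = m},
      ∃ t : (bt m θ).out, ι ⟨z.1, z.2.1⟩ = ⟨m, t⟩ := by
    rintro ⟨z, hz, hm⟩
    rw [dif_pos hz] at hm
    subst hm
    exact ⟨(ι ⟨z, hz⟩).2, rfl⟩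
  choose t ht using key
  have := Cardinal.mk_le_of_injective (f := t) (by
    intro x y hxy
    have : ι ⟨x.1, x.2.1⟩ = ι ⟨y.1, y.2.1⟩ := by rw [ht x, ht y, hxy]
    have h2 := congrArg Subtype.val (ι.injective this)
    exact Subtype.ext h2)
  rwa [Cardinal.mk_out] at this

theorem main_le [Infinite C] (hp : #C < #C ^ ℵ₀) :
    ∃ (V : Type) (G : SimpleGraph V), #V ≤ 2 ^ bw #C ∧ IsEmpty (G.Coloring C) ∧
      (∃ D : Type, #D = Order.succ #C ∧ Nonempty (G.Coloring D)) ∧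
      ∀ s : Set V, #s ≤ bw #C → Nonempty ((G.induce s).Coloring C) := by
  classical
  have hC := Cardinal.aleph0_le_mk C
  have hCw : #C < bw #C := bt_lt_bw 0 #C
  have h0 : ℵ₀ ≤ bw #C := hC.trans hCw.le
  obtain ⟨T, hT⟩ : ∃ T : Set (ℕ → C), #T = Order.succ #C :=
    Cardinal.le_mk_iff_exists_set.1 (by
      rw [← Cardinal.power_def, Cardinal.mk_nat]
      exact Order.succ_le_of_lt hp)
  let A : Type := (bw #C).out
  have hA : #A = bw #C := Cardinal.mk_out _
  have hAinf : Infinite A := Cardinal.aleph0_le_mk_iff.1 (hA ▸ h0)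
  let _ : Zero A := ⟨Classical.arbitrary A⟩
  have hlt : ∀ m, bt m #C < #A := fun m => hA ▸ bt_lt_bw m _
  have hW : #(ℕ →₀ A) = bw #C := by
    rw [Cardinal.mk_finsupp_of_infinite', Cardinal.mk_nat, hA, max_eq_right h0]
  let S : ℕ → (ℕ →₀ A) → (ℕ →₀ A) → Prop := fun d x y => Sh d x y
  refine ⟨ZT (ℕ →₀ A) C × T, graph T (RT S), ?_,
    ⟨fun c => RT_global S (cov_of_coloring (hT ▸ Order.lt_succ _) _ c).sig⟩,
    ⟨T, hT, colorable_T _ _⟩, fun s hs => coloring_of_cov T _ (RT_anti S) s ?_⟩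
  · have hZ := mk_ZT_le (W := ℕ →₀ A) (C := C) (hW ▸ hCw.le)
    rw [hW] at hZ
    rw [Cardinal.mk_prod, Cardinal.lift_id, Cardinal.lift_id, hT]
    exact Cardinal.mul_le_of_le (h0.trans (Cardinal.cantor _).le) hZ
      ((Order.succ_le_of_lt hCw).trans (Cardinal.cantor _).le)
  · exact cov_of_le hC _ (RT_local S (fun m W' h => shift_small' m W' h)
      (fun d m D hD τ => shift_large hlt d m D hD τ)) _ (Cardinal.mk_image_le.trans hs)

/-- a graph that is not `C`-colourable has such an induced subgraph of least size -/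
theorem exists_least {V : Type} (G : SimpleGraph V) (h : IsEmpty (G.Coloring C)) :
    ∃ s : Set V, IsEmpty ((G.induce s).Coloring C) ∧
      ∀ t : Set s, #t < #s → Nonempty (((G.induce s).induce t).Coloring C) := by
  obtain ⟨s, hs, hm⟩ := (InvImage.wf (fun s : Set V => #s) Cardinal.lt_wf).has_min
    {s | IsEmpty ((G.induce s).Coloring C)} ⟨Set.univ, ⟨fun c => h.false
      (SimpleGraph.Coloring.mk (fun v => c ⟨v, trivial⟩) fun hvw => c.valid (by exact hvw))⟩⟩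
  refine ⟨s, hs, fun t ht => ?_⟩
  obtain ⟨c⟩ : Nonempty ((G.induce (Subtype.val '' t)).Coloring C) := by
    rw [← not_isEmpty_iff]
    exact fun hc => hm _ hc (Cardinal.mk_image_le.trans_lt ht)
  exact ⟨SimpleGraph.Coloring.mk (fun v => c ⟨v.1.1, v.1, v.2, rfl⟩)
    fun hvw => c.valid (by exact hvw)⟩

theorem main [Infinite C] (hp : #C < #C ^ ℵ₀) :
    ∃ (V : Type) (G : SimpleGraph V), bw #C < #V ∧ #V ≤ 2 ^ bw #C ∧ IsEmpty (G.Coloring C) ∧
      (∃ D : Type, #D = Order.succ #C ∧ Nonempty (G.Coloring D)) ∧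
      ∀ s : Set V, #s < #V → Nonempty ((G.induce s).Coloring C) := by
  obtain ⟨V, G, h1, h2, ⟨D, hD, ⟨c⟩⟩, h4⟩ := main_le hp
  obtain ⟨s, h5, h6⟩ := exists_least G h2
  refine ⟨s, G.induce s, lt_of_not_ge fun h => ?_, (Cardinal.mk_set_le s).trans h1, h5,
    ⟨D, hD, ⟨SimpleGraph.Coloring.mk (fun v => c v.1) fun hvw => c.valid (by exact hvw)⟩⟩, h6⟩
  exact h5.false (h4 s h).some

end Pool.Agent.Lib.MP_3beb55_lc.CF
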