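import Pool.Agent.Lib.MP_3beb55_lc.CF.Graph

/-! The tower system with families indexed by a set of colours. -/

namespace Pool.Agent.Lib.MP_3beb55_lc.CF
open Cardinal

theorem le_bt (m : ℕ) (θ : Cardinal.{0}) : θ ≤ bt m θ := by
  induction m with
  | zero => exact le_rfl
  | succ m ih => rw [bt_succ']; exact ih.trans (Cardinal.cantor _).le

variable {W C : Type} [Zero W] (S : ℕ → W → W → Prop)

/-- Families of sets of nodes. -/
abbrev Fam (W C : Type) [Zero W] : Type := ℕ × ℕ × C → Set (ℕ →₀ W)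

def Gen (u : Fam W C) (d : ℕ) (γ : ℕ →₀ W) : Prop := ∀ k, Ind S d (u k) → γ ∉ u k

def Bad (u : Fam W C) (d : ℕ) (γ : ℕ →₀ W) : Prop :=
  Gen S u d γ ∧ ∀ c : W, ∃ k, Ind S (d + 1) (u k) ∧ γ.update d c ∈ u k

abbrev ZT (W C : Type) [Zero W] : Type := (ℕ → W) ⊕ (ℕ × Fam W C × (ℕ →₀ W))

def RT (k : ℕ) : ZT W C → ZT W C → Prop
  | .inl x, .inl y => ∀ i < k, S i (x i) (y i)
  | .inr p, .inr q => p.1 = q.1 ∧ Bad S p.2.1 p.1 p.2.2 ∧ Bad S q.2.1 q.1 q.2.2 ∧
      (∀ i, i.1 < k → p.2.1 i = q.2.1 i) ∧ RN S p.1 p.2.2 q.2.2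
  | _, _ => False

theorem RT_anti (k l : ℕ) (hkl : k ≤ l) (x y : ZT W C) (h : RT S l x y) : RT S k x y := by
  rcases x with x | p <;> rcases y with y | q
  · exact fun i hi => h i (by omega)
  · exact h
  · exact h
  · exact ⟨h.1, h.2.1, h.2.2.1, fun i hi => h.2.2.2.1 i (by omega), h.2.2.2.2⟩

theorem mk_index [Infinite C] : #(ℕ × ℕ × C) ≤ #C := by
  have h0 := Cardinal.aleph0_le_mk C
  simp only [Cardinal.mk_prod, Cardinal.lift_id, Cardinal.mk_nat]
  exact Cardinal.mul_le_of_le h0 h0 (Cardinal.mul_le_of_le h0 h0 le_rfl)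

theorem RT_local [Infinite C]
    (H1 : ∀ (m : ℕ) (W' : Set W), #W' ≤ bt m #C →
      ∃ φ : W → C, ∀ x ∈ W', ∀ y ∈ W', S m x y → φ x ≠ φ y)
    (H2 : ∀ (d m : ℕ) (D : Type), #D ≤ bt m #C → ∀ τ : W → D, ∃ x y, S d x y ∧ τ x = τ y)
    (m : ℕ) (s : Set (ZT W C)) (hs : #s ≤ bt m #C) : Cov #C (RT S) s := by
  classical
  have h0 := Cardinal.aleph0_le_mk C
  refine Cov.of_parts h0 (fun z => Sum.elim (fun _ => 0) (fun _ => 1) z) ?_
  intro b
  by_cases hb : b = 0
  · subst hb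
    have hW : #(Set.range (fun z : s => Sum.elim (fun x => x m) (fun _ => (0 : W)) z.1)) ≤
        bt m #C := Cardinal.mk_range_le.trans hs
    obtain ⟨φ, hφ⟩ := H1 m _ hW
    refine ⟨C, le_rfl, fun z => Sum.elim (fun x => φ (x m)) (fun _ => φ 0) z, fun _ => m + 1, ?_⟩
    rintro (x | p) ⟨hx, hx'⟩ (y | q) ⟨hy, hy'⟩ e hR
    · exact hφ _ ⟨⟨_, hx⟩, rfl⟩ _ ⟨⟨_, hy⟩, rfl⟩ (hR m (Nat.lt_succ_self m)) e
    · exact hR
    · exact hR
    · simp at hx'
  · let uu : ZT W C → Fam W C := fun z => Sum.elim (fun _ _ => ∅) (fun p => p.2.1) z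
    let gg : ZT W C → (ℕ →₀ W) := fun z => Sum.elim (fun _ => 0) (fun p => p.2.2) z
    have h1 := h0.trans (le_bt m #C)
    have hC : #(Set ((s × (ℕ × ℕ × C)) × s)) ≤ bt (m + 1) #C := by
      rw [Cardinal.mk_set, bt_succ']
      apply Cardinal.power_le_power_left two_ne_zero
      rw [Cardinal.mk_prod, Cardinal.mk_prod]
      simp only [Cardinal.lift_id]
      exact Cardinal.mul_le_of_le h1
        (Cardinal.mul_le_of_le h1 hs (mk_index.trans (le_bt m _))) hs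
    have hc : ∀ d : ℕ, ∃ c c' : W, S d c c' ∧ ∀ z ∈ s, ∀ k, ∀ z' ∈ s,
        ((gg z').update d c ∈ uu z k ↔ (gg z').update d c' ∈ uu z k) := by
      intro d
      obtain ⟨c, c', h1, h2⟩ := H2 d (m + 1) _ hC
        (fun c => {t : (s × (ℕ × ℕ × C)) × s | (gg t.2.1).update d c ∈ uu t.1.1.1 t.1.2})
      refine ⟨c, c', h1, fun z hz k z' hz' => ?_⟩
      exact Set.ext_iff.1 h2 ((⟨z, hz⟩, k), ⟨z', hz'⟩)
    choose c c' hcc hτ using hc
    have hk : ∀ p : ℕ × Fam W C × (ℕ →₀ W), ∃ k, Bad S p.2.1 p.1 p.2.2 →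
        Ind S (p.1 + 1) (p.2.1 k) ∧ p.2.2.update p.1 (c p.1) ∈ p.2.1 k := by
      intro p
      by_cases h : Bad S p.2.1 p.1 p.2.2
      · obtain ⟨k, hk⟩ := h.2 (c p.1)
        exact ⟨k, fun _ => hk⟩
      · exact ⟨Classical.arbitrary _, fun h' => absurd h' h⟩
    choose κ hκ using hk
    refine ⟨ℕ × ℕ × C, mk_index, fun z => Sum.elim (fun _ => Classical.arbitrary _) κ z,
      fun k => k.1 + 1, ?_⟩
    rintro (x | p) ⟨hx, hx'⟩ (y | q) ⟨hy, hy'⟩ e hR
    · exact hb (by simpa using hx'.symm)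
    · exact hR
    · exact hR
    · obtain ⟨d, u, γ⟩ := p
      obtain ⟨d', u', γ'⟩ := q
      obtain ⟨hd, hB, hB', hu, hRN⟩ := hR
      simp only at hd hB hB' hu hRN e
      subst hd
      simp only [Sum.elim_inr] at e hu
      have h1 := hκ (d, u, γ) hB
      have h2 := hκ (d, u', γ') hB'
      simp only at h1 h2
      rw [← e, ← hu _ (Nat.lt_succ_self _)] at h2
      have h3 : γ'.update d (c' d) ∈ u (κ (d, u, γ)) :=
        (hτ d _ hx (κ (d, u, γ)) _ hy).1 h2.2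
      refine h1.1 _ h1.2 _ h3 ?_
      intro i hi
      rcases Nat.lt_or_ge i d with h | h
      · simp only [Finsupp.coe_update, Function.update_of_ne h.ne]
        exact hRN i h
      · obtain rfl : i = d := by omega
        simpa using hcc i

/-- a family closed under operations that read only the first blocks -/
theorem exists_closed {α X : Type} (a : α) (ar : X → ℕ) (F : X → (ℕ × X → α) → α)
    (hF : ∀ n u u', (∀ i, i.1 < ar n → u i = u' i) → F n u = F n u') :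
    ∃ u : ℕ × X → α, ∀ n, u (ar n, n) = F n u := by
  let v : ℕ → X → α := fun k => Nat.strongRec
    (fun k ih n => F n fun i => if h : i.1 < k then ih i.1 h i.2 else a) k
  have hv : ∀ k n, v k n = F n fun i => if i.1 < k then v i.1 i.2 else a := by
    intro k n
    simp only [v]
    rw [Nat.strongRec_eq]
    simp only [dite_eq_ite]
  exact ⟨fun i => v i.1 i.2, fun n => (hv _ _).trans (hF _ _ _ fun i hi => if_pos hi)⟩

theorem RT_global : ¬ Sig C (RT S : ℕ → ZT W C → ZT W C → Prop) Set.univ := by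
  classical
  rintro ⟨dd, kk, h⟩
  let Y : C → Set (ℕ →₀ W) := fun j => {γ | ∃ x, dd (Sum.inl x) = j ∧ γ = nodeOf x (kk j)}
  let I : ℕ → C → Fam W C → Set (ℕ →₀ W) := fun d j u =>
    {γ | ∃ u', (∀ i, i.1 < kk j → u' i = u i) ∧ Bad S u' d γ ∧ dd (Sum.inr (d, u', γ)) = j}
  have hY : ∀ j, Ind S (kk j) (Y j) := by
    rintro j _ ⟨x, hx, rfl⟩ _ ⟨y, hy, rfl⟩ hR
    refine h (Sum.inl x) trivial (Sum.inl y) trivial (hx.trans hy.symm) ?_
    rw [hx]
    intro i hi
    have := hR i hi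
    rwa [nodeOf_apply _ _ _ hi, nodeOf_apply _ _ _ hi] at this
  have hI : ∀ d j u, Ind S d (I d j u) := by
    rintro d j u γ ⟨u1, h1, hB1, hd1⟩ γ' ⟨u2, h2, hB2, hd2⟩ hR
    refine h (Sum.inr (d, u1, γ)) trivial (Sum.inr (d, u2, γ')) trivial (hd1.trans hd2.symm) ?_
    rw [hd1]
    exact ⟨rfl, hB1, hB2, fun i hi => (h1 i hi).trans (h2 i hi).symm, hR⟩
  obtain ⟨u, hu⟩ := exists_closed (X := ℕ × C) (∅ : Set (ℕ →₀ W)) (fun n => kk n.2)
    (fun n u => match n.1 with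
      | 0 => Y n.2
      | d + 1 => I d n.2 u) (by
      rintro ⟨_ | d, j⟩ u u' huu
      · rfl
      · ext γ
        constructor
        · rintro ⟨u1, h1, h2⟩
          exact ⟨u1, fun i hi => (h1 i hi).trans (huu i hi), h2⟩
        · rintro ⟨u1, h1, h2⟩
          exact ⟨u1, fun i hi => (h1 i hi).trans (huu i hi).symm, h2⟩)
  have huY : ∀ j, ∃ k, u k = Y j := fun j => ⟨_, hu (0, j)⟩
  have huI : ∀ d j, ∃ k, u k = I d j u := fun d j => ⟨_, hu (d + 1, j)⟩
  have hstep : ∀ d γ, ∃ c : W, Gen S u d γ → Gen S u (d + 1) (γ.update d c) := by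
    intro d γ
    by_cases hG : Gen S u d γ
    · by_contra hc
      push Not at hc
      have hB : Bad S u d γ := by
        refine ⟨hG, fun c => ?_⟩
        have := (hc c).2
        simp only [Gen, not_forall, not_not] at this
        obtain ⟨k, h1, h2⟩ := this
        exact ⟨k, h1, h2⟩
      obtain ⟨k, hk⟩ := huI d (dd (Sum.inr (d, u, γ)))
      refine hG k (hk ▸ hI _ _ _) ?_
      rw [hk]
      exact ⟨u, fun _ _ => rfl, hB, rfl⟩
    · exact ⟨0, fun h' => absurd h' hG⟩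
  choose nxt hnxt using hstep
  let nd : ℕ → (ℕ →₀ W) := fun d => Nat.rec 0 (fun d γ => γ.update d (nxt d γ)) d
  let x : ℕ → W := fun d => nxt d (nd d)
  have hnd : ∀ d, nodeOf x d = nd d := by
    intro d
    induction d with
    | zero => rfl
    | succ d ih => rw [nodeOf, ih]
  have hgen : ∀ d, Gen S u d (nd d) := by
    intro d
    induction d with
    | zero =>
      intro k hk hm
      exact hk _ hm _ hm (fun i hi => absurd hi (Nat.not_lt_zero i))
    | succ d ih => exact hnxt d _ ih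
  obtain ⟨k, hk⟩ := huY (dd (Sum.inl x))
  refine hgen (kk (dd (Sum.inl x))) k (hk ▸ hY _) ?_
  rw [hk]
  exact ⟨x, rfl, (hnd _).symm⟩

theorem mk_ZT_le [Infinite C] (hW : #C ≤ #W) : #(ZT W C) ≤ 2 ^ #W := by
  have h0 := (Cardinal.aleph0_le_mk C).trans hW
  have : Infinite W := Cardinal.aleph0_le_mk_iff.1 h0
  have hN : #(ℕ →₀ W) = #W := by
    rw [Cardinal.mk_finsupp_of_infinite', Cardinal.mk_nat, max_eq_right h0]
  have h2 : ℵ₀ ≤ 2 ^ #W := h0.trans (Cardinal.cantor _).le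
  have h3 : ∀ c ≤ #W, ((2 : Cardinal) ^ #W) ^ c ≤ 2 ^ #W := fun c hc => by
    rw [← Cardinal.power_mul]
    exact Cardinal.power_le_power_left two_ne_zero (Cardinal.mul_le_of_le h0 le_rfl hc)
  have h4 : #(ℕ → W) ≤ 2 ^ #W := by
    rw [← Cardinal.power_def, Cardinal.mk_nat]
    exact (Cardinal.power_le_power_right (Cardinal.cantor _).le).trans (h3 _ h0)
  have h5 : #(Fam W C) ≤ 2 ^ #W := by
    rw [← Cardinal.power_def, Cardinal.mk_set, hN]
    exact h3 _ (mk_index.trans hW)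
  rw [Cardinal.mk_sum, Cardinal.mk_prod, Cardinal.mk_prod]
  simp only [Cardinal.lift_id, Cardinal.mk_nat, hN]
  exact Cardinal.add_le_of_le h2 h4 (Cardinal.mul_le_of_le h2 h2
    (Cardinal.mul_le_of_le h2 h5 (Cardinal.cantor _).le))

end Pool.Agent.Lib.MP_3beb55_lc.CF
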